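import Pool.Agent.MP_eddcad_an.h19.Chain

set_option autoImplicit false

namespace Pool.Agent.MP_eddcad_an.h43

open MvPolynomial Finset h19

open ComplexConjugate

variable {σ : Type} [Fintype σ] [DecidableEq σ]

/-- On the sphere `Φ` is a sum of at most `r` square moduli of polynomials of degree at most `D`. -/
def SosN (r D : ℕ) (Φ : Sp σ → ℂ) : Prop :=
  ∃ (ι : Type) (_ : Fintype ι) (g : ι → MvPolynomial σ ℂ), Fintype.card ι ≤ r ∧
    (∀ t, (g t).totalDegree ≤ D) ∧
    ∀ z : Sp σ, Φ z = ∑ t, eval z.1 (g t) * conj (eval z.1 (g t))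

omit [DecidableEq σ] in
theorem SosN.zero (D : ℕ) : SosN (σ := σ) 0 D fun _ => 0 :=
  ⟨Empty, inferInstance, Empty.elim, by simp, fun i => i.elim, fun _ => by simp⟩

omit [DecidableEq σ] in
theorem SosN.congr {r D : ℕ} {Φ Ψ : Sp σ → ℂ} (h : SosN r D Φ) (e : ∀ x, Ψ x = Φ x) :
    SosN r D Ψ := by
  rwa [funext e]

omit [DecidableEq σ] in
theorem SosN.mono {r r' D D' : ℕ} {Φ : Sp σ → ℂ} (h : SosN r D Φ) (hr : r ≤ r') (hD : D ≤ D') :
    SosN r' D' Φ := by
  obtain ⟨ι, _, g, h1, h2, h3⟩ := h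
  exact ⟨ι, inferInstance, g, h1.trans hr, fun t => (h2 t).trans hD, h3⟩

omit [DecidableEq σ] in
theorem SosN.add {r s D : ℕ} {Φ Ψ : Sp σ → ℂ} (h : SosN r D Φ) (h' : SosN s D Ψ) :
    SosN (r + s) D fun x => Φ x + Ψ x := by
  obtain ⟨ι, _, f, h1, h2, h3⟩ := h
  obtain ⟨κ, _, g, h4, h5, h6⟩ := h'
  refine ⟨ι ⊕ κ, inferInstance, Sum.elim f g, ?_, ?_, fun x => ?_⟩
  · rw [Fintype.card_sum]
    exact add_le_add h1 h4
  · rintro (i | i)
    · exact h2 i
    · exact h5 i
  · simp [Fintype.sum_sum_type, h3, h6]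

omit [DecidableEq σ] in
theorem SosN.sum {κ : Type} (s : Finset κ) {r D : ℕ} {Φ : κ → Sp σ → ℂ}
    (h : ∀ i, SosN r D (Φ i)) : SosN (s.card * r) D fun x => ∑ i ∈ s, Φ i x := by
  classical
  induction s using Finset.induction_on with
  | empty => simpa using SosN.zero D
  | insert a s ha ih =>
    rw [Finset.card_insert_of_notMem ha, add_mul, one_mul, add_comm]
    exact ((h a).add ih).congr fun x => by rw [Finset.sum_insert ha]

theorem sos_fk {m D : ℕ} {P : MvPolynomial σ (MvPolynomial σ ℂ)} (hP : P.IsHomogeneous m)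
    (hD : Dg D P) : SosN #(mon σ m) D fun z => fk (map (eval z.1) P) (map (eval z.1) P) := by
  refine ⟨mon σ m, inferInstance, fun γ => C ((√((wt γ.1 : ℕ) : ℝ) : ℝ) : ℂ) * coeff γ.1 P,
    by simp, fun γ => ?_, fun z => ?_⟩
  · refine (totalDegree_mul _ _).trans ?_
    rw [totalDegree_C, zero_add]
    exact hD _
  · simp only
    rw [fk_eq _ _ _ (support_subset_mon (hP.map _)), ← Finset.sum_coe_sort]
    refine Finset.sum_congr rfl fun γ _ => ?_
    simp only [eval_mul, eval_C, sqrt_mul_sqrt (Nat.cast_nonneg (wt γ.1)), Complex.ofReal_natCast,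
      coeff_map]

omit [Fintype σ] [DecidableEq σ] in
theorem dg_smul {D : ℕ} {P : MvPolynomial σ (MvPolynomial σ ℂ)} (hD : Dg D P)
    (q : MvPolynomial σ ℂ) {k : ℕ} (hq : q.totalDegree ≤ k) : Dg (D + k) (q • P) := by
  intro α
  rw [coeff_smul, smul_eq_mul, add_comm]
  exact (totalDegree_mul _ _).trans (add_le_add hq (hD α))

/-- One filler block: any real multiple of the top norm is absorbed by the next lower norm. -/
theorem sos_step {m D : ℕ} {V : MvPolynomial σ (MvPolynomial σ ℂ)} (hV : V.IsHomogeneous m)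
    (hD : Dg D V) (γ : ℝ) :
    SosN (Fintype.card σ * #(mon σ m)) (D + 1) fun z =>
      ((((m + 1 + γ) / 2) ^ 2 : ℝ) : ℂ) * fk (map (eval z.1) V) (map (eval z.1) V) -
        γ * fk (ell z.1 * map (eval z.1) V) (ell z.1 * map (eval z.1) V) := by
  set s : ℂ := ((((m : ℝ) + 1 + γ) / 2 : ℝ) : ℂ) with hs
  have hL : (ell X * V).IsHomogeneous (m + 1) := by
    simpa [add_comm] using (ell_hom X).mul hV
  have h1 : ∀ i : σ, SosN #(mon σ m) (D + 1) fun z : Sp σ =>
      fk (map (eval z.1) ((C s * X i : MvPolynomial σ ℂ) • V - pderiv i (ell X * V)))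
        (map (eval z.1) ((C s * X i : MvPolynomial σ ℂ) • V - pderiv i (ell X * V))) := by
    intro i
    refine sos_fk (IsHomogeneous.sub
      ((homogeneousSubmodule σ (MvPolynomial σ ℂ) m).smul_mem _ hV) (by simpa using hL.pderiv))
      fun α => ?_
    rw [coeff_sub]
    refine (totalDegree_sub _ _).trans (max_le (dg_smul hD _ ?_ α) ?_)
    · simpa using totalDegree_mul (C s) (X i : MvPolynomial σ ℂ)
    · rw [coeff_pderiv]
      refine (totalDegree_mul _ _).trans ?_
      have e : ((α i : MvPolynomial σ ℂ) + 1) = C ((α i : ℂ) + 1) := by simp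
      rw [e, totalDegree_C, add_zero]
      exact hD.ell_mul _
  refine (SosN.sum Finset.univ h1).congr fun z => ?_
  set p := map (eval z.1) V with hp
  have hq : (ell z.1 * p).IsHomogeneous (m + 1) := by
    simpa [add_comm] using (ell_hom z.1).mul (hV.map (eval z.1))
  have e1 : ∀ i : σ, map (eval z.1) ((C s * X i : MvPolynomial σ ℂ) • V - pderiv i (ell X * V)) =
      (s * z.1 i) • p - pderiv i (ell z.1 * p) := by
    intro i
    rw [map_sub, ← pderiv_map, map_mul, map_ell, smul_eq_C_mul, map_mul, map_C, smul_eq_C_mul]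
    simp [hp]
  have e2 : ∑ i, conj (z.1 i) * fk (pderiv i (ell z.1 * p)) p = fk (ell z.1 * p) (ell z.1 * p) := by
    rw [fk_ell', bb_apply, map_sum, LinearMap.sum_apply]
    simp only [map_smul, LinearMap.smul_apply, smul_eq_mul]
  have e3 : ∑ i, z.1 i * fk p (pderiv i (ell z.1 * p)) = fk (ell z.1 * p) (ell z.1 * p) := by
    rw [fk_ell, bb_apply, map_sum]
    simp only [map_smulₛₗ, smul_eq_mul, Complex.conj_conj]
  have e4 := euler hq
  have hc : conj s = s := Complex.conj_ofReal _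
  have e5 : ∀ i : σ, fk ((s * z.1 i) • p - pderiv i (ell z.1 * p))
      ((s * z.1 i) • p - pderiv i (ell z.1 * p)) =
      s ^ 2 * fk p p * (z.1 i * conj (z.1 i)) - s * (z.1 i * fk p (pderiv i (ell z.1 * p))) -
        s * (conj (z.1 i) * fk (pderiv i (ell z.1 * p)) p) +
        fk (pderiv i (ell z.1 * p)) (pderiv i (ell z.1 * p)) := by
    intro i
    simp only [map_sub, LinearMap.sub_apply, map_smul, LinearMap.smul_apply, map_smulₛₗ,
      smul_eq_mul, map_mul, hc]
    ring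
  simp only [e1, e5, Finset.sum_add_distrib, Finset.sum_sub_distrib, ← Finset.mul_sum, e2, e3, e4,
    z.2]
  rw [hs]
  push_cast
  ring

/-- Points of the sphere together with a form of degree `j`. -/
abbrev Pt (σ : Type) [Fintype σ] (j : ℕ) : Type :=
  Sp σ × {p : MvPolynomial σ ℂ // p.IsHomogeneous j}

/-- Real span of the norms of the derivatives of order below `m`. -/
noncomputable def low (σ : Type) [Fintype σ] (j m : ℕ) : Submodule ℝ (Pt σ j → ℂ) :=
  Submodule.span ℝ ((fun k (x : Pt σ j) => nn x.1.1 k x.2.1) '' Set.Iio m)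

omit [DecidableEq σ] in
theorem low_mono (j : ℕ) {m m' : ℕ} (h : m ≤ m') : low σ j m ≤ low σ j m' :=
  Submodule.span_mono (Set.image_mono (Set.Iio_subset_Iio h))

omit [DecidableEq σ] in
theorem nn_mem (j : ℕ) {k m : ℕ} (h : k < m) :
    (fun x : Pt σ j => nn x.1.1 k x.2.1) ∈ low σ j m :=
  Submodule.subset_span ⟨k, h, rfl⟩

omit [DecidableEq σ] in
theorem low_le (j m : ℕ) : low σ j m ≤ low σ j (j + 1) := by
  refine Submodule.span_le.2 ?_
  rintro _ ⟨k, -, rfl⟩
  rcases Nat.lt_or_ge j k with h | h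
  · have e : (fun x : Pt σ j => nn x.1.1 k x.2.1) = 0 := by
      funext x
      rw [nn, bb_pow_eq_zero _ h x.2.2]
      simp
    simp only [e]
    exact Submodule.zero_mem _
  · exact nn_mem j (by omega)

theorem lead_mem (j a k : ℕ) :
    (fun x : Pt σ j => nn x.1.1 k (ell x.1.1 ^ a * x.2.1) - nn x.1.1 (k + a) x.2.1) ∈
      low σ j (k + a) := by
  induction a generalizing k with
  | zero =>
    simp only [pow_zero, one_mul, add_zero, sub_self]
    exact (low σ j k).zero_mem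
  | succ a ih =>
    have ih' : ∀ k m, k + a < m →
        (fun x : Pt σ j => nn x.1.1 k (ell x.1.1 ^ a * x.2.1)) ∈ low σ j m := by
      intro k m h
      have h1 := add_mem (low_mono j h.le (ih k)) (nn_mem (σ := σ) j h)
      refine (congrArg (· ∈ low σ j m) (funext fun x => ?_)).mp h1
      simp
    rcases k with _ | k
    · have h1 := add_mem (ih 1) (ih' 0 (1 + a) (by omega))
      rw [show 0 + (a + 1) = 1 + a by omega]
      refine (congrArg (· ∈ low σ j (1 + a)) (funext fun x => ?_)).mp h1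
      have h := nn_zero_ell x.1.2 (ell x.1.1 ^ a * x.2.1)
      simp only [nn, pow_zero, pow_one, Module.End.one_apply, Pi.add_apply]
      rw [pow_succ', mul_assoc (ell x.1.1), h]
      ring
    · have h1 := add_mem (add_mem (ih (k + 2)) (Submodule.smul_mem _ (2 * k + 3 : ℝ)
        (ih' (k + 1) (k + 2 + a) (by omega)))) (Submodule.smul_mem _ ((k + 1 : ℝ) ^ 2)
        (ih' k (k + 2 + a) (by omega)))
      rw [show k + 1 + (a + 1) = k + 2 + a by omega]
      refine (congrArg (· ∈ low σ j (k + 2 + a)) (funext fun x => ?_)).mp h1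
      simp only [Pi.add_apply, Pi.smul_apply, Complex.real_smul]
      rw [pow_succ' (ell x.1.1), mul_assoc (ell x.1.1), nn_ell x.1.2]
      push_cast
      ring

theorem top_mem (j a : ℕ) {m : ℕ} (h : a < m) :
    (fun x : Pt σ j => fk (ell x.1.1 ^ a * x.2.1) (ell x.1.1 ^ a * x.2.1)) ∈ low σ j m := by
  have h0 := lead_mem (σ := σ) j a 0
  rw [zero_add] at h0
  have h1 := add_mem (low_mono j h.le h0) (nn_mem (σ := σ) j h)
  refine (congrArg (· ∈ low σ j m) (funext fun x => ?_)).mp h1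
  simp [nn]

/-- The norm of the derivative of order `m + 1` can be cancelled with `ρ m` squares. -/
def Step (σ : Type) [Fintype σ] (j : ℕ) (ρ : ℕ → ℕ) : Prop :=
  ∀ m < j, ∀ γ : ℝ, ∃ Ψ ∈ low σ j (m + 1),
    ∀ (U : MvPolynomial σ (MvPolynomial σ ℂ)) (e : ℕ) (hU : U.IsHomogeneous j), Dg e U →
      SosN (ρ m) (e + (m + 1)) fun z =>
        Ψ (z, ⟨map (eval z.1) U, hU.map _⟩) - γ * nn z.1 (m + 1) (map (eval z.1) U)

theorem step_all (j : ℕ) : Step σ j fun m => Fintype.card σ * #(mon σ (j + m)) := by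
  intro m _ γ
  have h2 := lead_mem (σ := σ) j (m + 1) 0
  rw [zero_add] at h2
  refine ⟨_, sub_mem (Submodule.smul_mem _ (((((j + m : ℕ) : ℝ) + 1 + γ) / 2) ^ 2)
    (top_mem (σ := σ) j m (Nat.lt_succ_self m))) (Submodule.smul_mem _ γ h2), fun U e hU hd => ?_⟩
  have h3 : (ell X ^ m * U).IsHomogeneous (j + m) := by
    simpa [add_comm] using ((ell_hom X).pow m).mul hU
  refine (sos_step h3 (hd.ell_pow m) γ).congr fun z => ?_
  have e1 : map (eval z.1) (ell X ^ m * U) = ell z.1 ^ m * map (eval z.1) U := by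
    simp [map_ell]
  simp only [e1, Pi.sub_apply, Pi.smul_apply, Complex.real_smul, nn, pow_zero,
    Module.End.one_apply]
  rw [pow_succ' (ell z.1), mul_assoc (ell z.1)]
  ring

omit [DecidableEq σ] in
/-- Downward elimination: one filler block for each order. -/
theorem elim {j : ℕ} {ρ : ℕ → ℕ} (hρ : Step σ j ρ) (m : ℕ) (hm : m ≤ j) (Φ : Pt σ j → ℂ)
    (hΦ : Φ ∈ low σ j (m + 1)) :
    ∃ c : ℝ, ∀ (U : MvPolynomial σ (MvPolynomial σ ℂ)) (e : ℕ) (hU : U.IsHomogeneous j), Dg e U →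
      SosN (∑ b ∈ range m, ρ b) (e + m) fun z =>
        c * fk (map (eval z.1) U) (map (eval z.1) U) - Φ (z, ⟨map (eval z.1) U, hU.map _⟩) := by
  have split : ∀ (m : ℕ) (Φ : Pt σ j → ℂ), Φ ∈ low σ j (m + 1) → ∃ γ : ℝ, ∃ Ψ ∈ low σ j m,
      Φ = γ • (fun x : Pt σ j => nn x.1.1 m x.2.1) + Ψ := by
    intro m Φ h
    have e : Set.Iio (m + 1) = insert m (Set.Iio m) := by
      ext k
      simp only [Set.mem_Iio, Set.mem_insert_iff]
      omega
    rw [low, e, Set.image_insert_eq, Submodule.mem_span_insert] at h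
    exact h
  induction m generalizing Φ with
  | zero =>
    obtain ⟨γ, Ψ, h1, rfl⟩ := split 0 Φ hΦ
    have h2 : Ψ = 0 := by simpa [low] using h1
    refine ⟨γ, fun U e hU _ => ?_⟩
    simpa [h2, nn] using SosN.zero (σ := σ) e
  | succ m ih =>
    obtain ⟨γ, Ψ, h1, rfl⟩ := split _ Φ hΦ
    obtain ⟨Θ, h2, h3⟩ := hρ m hm γ
    obtain ⟨c, hc⟩ := ih (by omega) _ (add_mem h1 h2)
    refine ⟨c, fun U e hU hd => ?_⟩
    rw [Finset.sum_range_succ]
    refine (((hc U e hU hd).mono le_rfl (Nat.le_succ _)).add (h3 U e hU hd)).congr fun z => ?_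
    simp only [Pi.add_apply, Pi.smul_apply, Complex.real_smul]
    ring

/-- The power of the tautological form is completed by one block for each order up to `j`. -/
theorem fillers {j : ℕ} {ρ : ℕ → ℕ} (hρ : Step σ j ρ) (a : ℕ) : ∃ c : ℕ, 0 < c ∧
    ∀ (U : MvPolynomial σ (MvPolynomial σ ℂ)) (e : ℕ), U.IsHomogeneous j → Dg e U →
      SosN (∑ b ∈ range j, ρ b + #(mon σ j)) (e + j) fun z =>
        c * ∑ α ∈ mon σ j, wt α * (eval z.1 (coeff α U) * conj (eval z.1 (coeff α U))) -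
        ∑ γ ∈ mon σ (j + a), wt γ * (eval z.1 (coeff γ (ell X ^ a * U)) *
          conj (eval z.1 (coeff γ (ell X ^ a * U)))) := by
  obtain ⟨c, hc⟩ := elim hρ j le_rfl _ (low_le j _ (top_mem (σ := σ) j a (Nat.lt_succ_self a)))
  refine ⟨⌈c⌉₊ + 1, Nat.succ_pos _, fun U e hU hd => ?_⟩
  have h0 : (0 : ℝ) ≤ ((⌈c⌉₊ + 1 : ℕ) : ℝ) - c := by
    have := Nat.le_ceil c
    push_cast
    linarith
  set s : ℂ := ((√(((⌈c⌉₊ + 1 : ℕ) : ℝ) - c) : ℝ) : ℂ) with hs
  have h1 := sos_fk ((homogeneousSubmodule σ (MvPolynomial σ ℂ) j).smul_mem (C s) hU)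
    (dg_smul hd (C s) (k := j) (by simp))
  refine ((hc U e hU hd).add h1).congr fun z => ?_
  have e1 : ell z.1 ^ a * map (eval z.1) U = map (eval z.1) (ell X ^ a * U) := by
    simp [map_ell]
  have e2 : map (eval z.1) ((C s : MvPolynomial σ ℂ) • U) = s • map (eval z.1) U := by
    rw [smul_eq_C_mul, map_mul, map_C, smul_eq_C_mul, eval_C]
  have e3 : s * conj s = ((⌈c⌉₊ + 1 : ℕ) : ℂ) - c := by
    have h := sqrt_mul_sqrt h0 1
    simp only [mul_one, map_one] at h
    rw [hs, h]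
    push_cast
    ring
  have h2 : (ell X ^ a * U).IsHomogeneous (j + a) := by
    simpa [add_comm] using ((ell_hom X).pow a).mul hU
  simp only [e1, e2, map_smul, LinearMap.smul_apply, map_smulₛₗ, smul_eq_mul]
  rw [fk_eq _ _ _ (support_subset_mon (hU.map _)),
    fk_eq _ _ _ (support_subset_mon (h2.map _))]
  simp only [coeff_map]
  linear_combination (-∑ α ∈ mon σ j, (wt α : ℂ) *
    (eval z.1 (coeff α U) * conj (eval z.1 (coeff α U)))) * e3

/-- The polynomial sphere map of degree `a * dim S^j` with few fillers. -/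
theorem block (o : σ) {j a : ℕ} {ρ : ℕ → ℕ} (hρ : Step σ j ρ) (hja : j ≤ a) :
    ∃ (ι : Type) (_ : Fintype ι) (g : ι → MvPolynomial σ ℂ),
      Fintype.card ι ≤ 1 + #(mon σ (j + a)) + ∑ b ∈ range j, ρ b ∧
      (∀ t, (g t).totalDegree ≤ #(mon σ j) * a) ∧
      (∃ t, g t ≠ 0 ∧ (g t).totalDegree = #(mon σ j) * a) ∧
      ∀ z : σ → ℂ, ∑ i, ‖z i‖ ^ 2 = 1 → ∑ t, ‖eval z (g t)‖ ^ 2 = 1 := by
  obtain ⟨c, hc, hf⟩ := fillers hρ a
  obtain ⟨U, r, h1, h2, h3, ⟨κ, hκ, h4⟩, h5⟩ := chain o j a c hc (mon σ j) Finset.Subset.rfl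
  have hU : U.IsHomogeneous j := fun α hα => by
    have h := mem_mon.1 (h1 (mem_support_iff.2 hα))
    rwa [Finsupp.degree_eq_weight_one] at h
  obtain ⟨ι, _, g, hn, hg, h6⟩ := hf U _ hU h2
  have hm : 1 ≤ #(mon σ j) :=
    Finset.card_pos.2 ⟨Finsupp.single o j, mem_mon.2 (Finsupp.degree_single _ _)⟩
  have hma : (#(mon σ j) - 1) * a + a = #(mon σ j) * a := by
    rw [← add_one_mul, Nat.sub_add_cancel hm]
  let T := (mon σ j).map (addRightEmbedding (Finsupp.single o a))
  have hT : T ⊆ mon σ (j + a) := by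
    intro γ hγ
    obtain ⟨β, hβ, rfl⟩ := Finset.mem_map.1 hγ
    rw [mem_mon, addRightEmbedding_apply, map_add, mem_mon.1 hβ, Finsupp.degree_single]
  have hax : (ax o r).natDegree = #(mon σ j) * a := by
    rw [h4, Polynomial.natDegree_C_mul_X_pow _ _ hκ]
  refine ⟨Option (↥(mon σ (j + a) \ T) ⊕ ι), inferInstance, fun t => t.elim r (Sum.elim
    (fun γ => C ((√((wt γ.1 : ℕ) : ℝ) : ℝ) : ℂ) * coeff γ.1 (ell X ^ a * U)) g), ?_, ?_,
    ⟨none, fun h0 => ?_, le_antisymm h3 (hax ▸ natDegree_ax o r)⟩, fun z hz => ?_⟩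
  · have := Finset.card_sdiff_add_card_eq_card hT
    simp only [Fintype.card_option, Fintype.card_sum, Fintype.card_coe]
    rw [Finset.card_map] at this
    omega
  · rintro (_ | γ | t)
    · exact h3
    · refine (totalDegree_mul _ _).trans ?_
      rw [totalDegree_C, zero_add, ← hma]
      exact h2.ell_pow a _
    · exact (hg t).trans (by omega)
  · have h0' : r = 0 := h0
    rw [h0', map_zero] at h4
    exact mul_ne_zero (Polynomial.C_ne_zero.2 hκ) (pow_ne_zero _ Polynomial.X_ne_zero) h4.symm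
  · have hz' : ∑ i, z i * conj (z i) = 1 := by
      simp only [Complex.mul_conj']
      exact_mod_cast hz
    have e1 := h6 ⟨z, hz'⟩
    have e2 := h5 z
    simp only at e1
    rw [← Finset.sum_sdiff hT, Finset.sum_map] at e1
    simp only [addRightEmbedding_apply] at e1
    have e3 : eval z r * conj (eval z r) + (∑ γ : ↥(mon σ (j + a) \ T),
        eval z (C ((√((wt γ.1 : ℕ) : ℝ) : ℝ) : ℂ) * coeff γ.1 (ell X ^ a * U)) *
          conj (eval z (C ((√((wt γ.1 : ℕ) : ℝ) : ℝ) : ℂ) * coeff γ.1 (ell X ^ a * U))) +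
        ∑ t, eval z (g t) * conj (eval z (g t))) = 1 := by
      simp only [eval_mul, eval_C, fun γ => sqrt_mul_sqrt (Nat.cast_nonneg (wt γ)),
        Complex.ofReal_natCast]
      rw [Finset.sum_coe_sort (mon σ (j + a) \ T) fun γ => (wt γ : ℂ) *
        (eval z (coeff γ (ell X ^ a * U)) * conj (eval z (coeff γ (ell X ^ a * U))))]
      linear_combination e2 - e1
    simp only [Complex.mul_conj'] at e3
    simp only [Fintype.sum_option, Fintype.sum_sum_type, Option.elim, Sum.elim_inl, Sum.elim_inr]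
    exact_mod_cast e3

end Pool.Agent.MP_eddcad_an.h43
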