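import Pool.Agent.MP_eddcad_an.h43.Fill

set_option autoImplicit false

namespace Pool.Agent.MP_eddcad_an.h43

open MvPolynomial Finset h19

open ComplexConjugate

/-- Derivative in the direction orthogonal to `a`, in two variables. -/
noncomputable def dl {A : Type} [CommRing A] (a : Fin 2 → A) (p : MvPolynomial (Fin 2) A) :
    MvPolynomial (Fin 2) A := a 0 • pderiv 1 p - a 1 • pderiv 0 p

theorem dl_hom {A : Type} [CommRing A] (a : Fin 2 → A) {m : ℕ} {p : MvPolynomial (Fin 2) A}
    (hp : p.IsHomogeneous m) : (dl a p).IsHomogeneous (m - 1) :=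
  IsHomogeneous.sub ((homogeneousSubmodule (Fin 2) A (m - 1)).smul_mem _ hp.pderiv)
    ((homogeneousSubmodule (Fin 2) A (m - 1)).smul_mem _ hp.pderiv)

theorem dl_iter_hom {A : Type} [CommRing A] (a : Fin 2 → A) {m : ℕ} {p : MvPolynomial (Fin 2) A}
    (hp : p.IsHomogeneous m) (i : ℕ) : ((dl a)^[i] p).IsHomogeneous (m - i) := by
  induction i with
  | zero => simpa using hp
  | succ i ih =>
    rw [Function.iterate_succ_apply', ← Nat.sub_sub]
    exact dl_hom a ih

theorem map_dl (z : Fin 2 → ℂ) (P : MvPolynomial (Fin 2) (MvPolynomial (Fin 2) ℂ)) (i : ℕ) :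
    map (eval z) ((dl X)^[i] P) = (dl z)^[i] (map (eval z) P) := by
  induction i with
  | zero => rfl
  | succ i ih =>
    rw [Function.iterate_succ_apply', Function.iterate_succ_apply', ← ih]
    simp [dl, smul_eq_C_mul, pderiv_map]

theorem dg_pderiv {D : ℕ} {P : MvPolynomial (Fin 2) (MvPolynomial (Fin 2) ℂ)} (h : Dg D P)
    (i : Fin 2) : Dg D (pderiv i P) := by
  intro α
  rw [coeff_pderiv]
  refine (totalDegree_mul _ _).trans ?_
  have e : ((α i : MvPolynomial (Fin 2) ℂ) + 1) = C ((α i : ℂ) + 1) := by simp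
  rw [e, totalDegree_C, add_zero]
  exact h _

theorem dg_dl {D : ℕ} {P : MvPolynomial (Fin 2) (MvPolynomial (Fin 2) ℂ)} (h : Dg D P) (i : ℕ) :
    Dg (D + i) ((dl X)^[i] P) := by
  induction i with
  | zero => simpa using h
  | succ i ih =>
    intro α
    rw [Function.iterate_succ_apply', dl, coeff_sub, ← add_assoc]
    exact (totalDegree_sub _ _).trans (max_le (dg_smul (dg_pderiv ih _) _ (by simp) α)
      (dg_smul (dg_pderiv ih _) _ (by simp) α))

theorem pderiv_swap (p : MvPolynomial (Fin 2) ℂ) :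
    pderiv 0 (pderiv 1 p) = pderiv 1 (pderiv 0 p) := by
  ext α
  simp only [coeff_pderiv]
  rw [add_right_comm]
  simp
  ring

theorem bb_dl (z : Fin 2 → ℂ) (p : MvPolynomial (Fin 2) ℂ) (k : ℕ) :
    (bb z ^ k) (dl z p) = dl z ((bb z ^ k) p) := by
  induction k with
  | zero => simp
  | succ k ih =>
    rw [pow_succ', Module.End.mul_apply, Module.End.mul_apply, ih]
    simp only [bb_apply, dl, Fin.sum_univ_two, map_sub, map_add, Derivation.map_smul, pderiv_swap]
    module

theorem bb_hom (z : Fin 2 → ℂ) {m : ℕ} {p : MvPolynomial (Fin 2) ℂ} (hp : p.IsHomogeneous m)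
    (k : ℕ) : ((bb z ^ k) p).IsHomogeneous (m - k) := by
  rw [← sum_dW]
  exact IsHomogeneous.sum _ _ _ fun I _ =>
    (homogeneousSubmodule (Fin 2) ℂ (m - k)).smul_mem _ (dW_hom hp k I)

theorem nn_dl {z : Fin 2 → ℂ} (hz : ∑ i, z i * conj (z i) = 1) {m : ℕ}
    {p : MvPolynomial (Fin 2) ℂ} (hp : p.IsHomogeneous m) (k : ℕ) :
    nn z k (dl z p) = ((m - k : ℕ) : ℝ) * nn z k p - nn z (k + 1) p := by
  have h := euler (bb_hom z hp k)
  rw [nn, nn, nn, bb_dl, pow_succ', Module.End.mul_apply, bb_apply]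
  generalize (bb z ^ k) p = q at h
  simp only [Fin.sum_univ_two] at h hz ⊢
  simp only [dl, map_sub, map_add, LinearMap.sub_apply, LinearMap.add_apply, map_smul,
    LinearMap.smul_apply, map_smulₛₗ, smul_eq_mul, Complex.conj_conj, Complex.ofReal_natCast]
  linear_combination h + (fk (pderiv 0 q) (pderiv 0 q) + fk (pderiv 1 q) (pderiv 1 q)) * hz

theorem lead_dl (j i k : ℕ) :
    (fun x : Pt (Fin 2) j => nn x.1.1 k ((dl x.1.1)^[i] x.2.1) -
      (-1) ^ i * nn x.1.1 (k + i) x.2.1) ∈ low (Fin 2) j (k + i) := by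
  induction i generalizing k with
  | zero =>
    simp only [Function.iterate_zero, id, pow_zero, one_mul, add_zero, sub_self]
    exact (low (Fin 2) j k).zero_mem
  | succ i ih =>
    have h1 := sub_mem (Submodule.smul_mem _ ((j - i - k : ℕ) : ℝ)
      (add_mem (low_mono j (by omega : k + i ≤ k + 1 + i) (ih k))
        (Submodule.smul_mem _ ((-1 : ℝ) ^ i) (nn_mem j (by omega : k + i < k + 1 + i)))))
      (ih (k + 1))
    rw [show k + (i + 1) = k + 1 + i by omega]
    refine (congrArg (· ∈ low (Fin 2) j (k + 1 + i)) (funext fun x => ?_)).mp h1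
    simp only [Pi.add_apply, Pi.sub_apply, Pi.smul_apply, Complex.real_smul]
    rw [Function.iterate_succ_apply', nn_dl x.1.2 (dl_iter_hom _ x.2.2 i)]
    push_cast
    ring

theorem SosN.smul {r D : ℕ} {Φ : Sp (Fin 2) → ℂ} (h : SosN r D Φ) {c : ℝ} (hc : 0 ≤ c) :
    SosN r D fun x => c * Φ x := by
  obtain ⟨ι, _, g, h1, h2, h3⟩ := h
  refine ⟨ι, inferInstance, fun t => C ((√c : ℝ) : ℂ) * g t, h1, fun t => ?_, fun z => ?_⟩
  · refine (totalDegree_mul _ _).trans ?_
    rw [totalDegree_C, zero_add]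
    exact h2 t
  · simp only [h3, Finset.mul_sum, eval_mul, eval_C, sqrt_mul_sqrt hc]

theorem card_two (k : ℕ) : #(mon (Fin 2) k) = k + 1 := by
  rw [mon, Finset.card_finsuppAntidiag_nat_eq_choose, Finset.card_univ, Fintype.card_fin,
    show 2 + k - 1 = k + 1 by omega, Nat.choose_succ_self_right]

theorem step_two (j : ℕ) : Step (Fin 2) j fun m => j - m + 2 := by
  intro m hm γ
  have hs : (((-1 : ℝ) ^ m : ℝ) : ℂ) * (-1) ^ m = 1 := by
    push_cast
    rw [← mul_pow]
    simp
  rcases le_total 0 (γ * (-1) ^ m) with h | h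
  · have h2 := lead_dl j (m + 1) 0
    rw [zero_add] at h2
    refine ⟨_, Submodule.smul_mem _ (γ * (-1) ^ m) h2, fun U e hU hd => ?_⟩
    refine (((sos_fk (dl_iter_hom X hU (m + 1)) (dg_dl hd (m + 1))).smul h).mono
      (by simp only [card_two]; omega) le_rfl).congr fun z => ?_
    simp only [map_dl, Pi.smul_apply, Complex.real_smul, Complex.ofReal_mul]
    simp only [nn, pow_zero, Module.End.one_apply]
    linear_combination (γ * fk ((bb z.1 ^ (m + 1)) (map (eval z.1) U))
      ((bb z.1 ^ (m + 1)) (map (eval z.1) U))) * hs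
  · have h2 := lead_dl j m 1
    have h3 := lead_dl j m 0
    rw [add_comm 1 m] at h2
    rw [zero_add] at h3
    refine ⟨_, Submodule.smul_mem _ (-(γ * (-1) ^ m)) (add_mem h2 (add_mem
      (low_mono j (Nat.le_succ m) h3) (Submodule.smul_mem _ ((-1 : ℝ) ^ m)
        (nn_mem j (Nat.lt_succ_self m))))), fun U e hU hd => ?_⟩
    have h4 : (ell X * (dl X)^[m] U).IsHomogeneous (j - m + 1) := by
      simpa [add_comm] using (ell_hom X).mul (dl_iter_hom X hU m)
    refine (((sos_fk h4 (dg_dl hd m).ell_mul).smul (neg_nonneg.2 h)).mono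
      (by rw [card_two]) le_rfl).congr fun z => ?_
    have e1 : map (eval z.1) (ell X * (dl X)^[m] U) = ell z.1 * (dl z.1)^[m] (map (eval z.1) U) := by
      simp [map_ell, map_dl]
    simp only [e1, nn_zero_ell z.2, Pi.add_apply, Pi.smul_apply, Complex.real_smul,
      Complex.ofReal_mul, Complex.ofReal_neg]
    simp only [nn, pow_zero, pow_one, Module.End.one_apply]
    have e2 : (((-1 : ℝ) ^ m : ℝ) : ℂ) = (-1) ^ m := by push_cast; rfl
    linear_combination (γ * fk ((bb z.1 ^ (m + 1)) (map (eval z.1) U))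
      ((bb z.1 ^ (m + 1)) (map (eval z.1) U))) * hs - (γ * (((-1 : ℝ) ^ m : ℝ) : ℂ) *
      fk ((bb z.1 ^ m) (map (eval z.1) U)) ((bb z.1 ^ m) (map (eval z.1) U))) * e2

theorem sum_two (j : ℕ) : 2 * ∑ b ∈ range j, (j - b + 2) = j ^ 2 + 5 * j := by
  have e : ∑ b ∈ range j, (j - b + 2) = ∑ b ∈ range j, (b + 3) := by
    rw [← Finset.sum_range_reflect]
    exact Finset.sum_congr rfl fun b hb => by have := Finset.mem_range.1 hb; omega
  rw [e]
  clear e
  induction j with
  | zero => simp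
  | succ j ih =>
    rw [Finset.sum_range_succ, mul_add, ih]
    ring

end Pool.Agent.MP_eddcad_an.h43
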