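import Pool.Agent.MP_eddcad_an.h19.Range
import Pool.Agent.MP_eddcad_an.h43.Two

set_option autoImplicit false

namespace Pool.Agent.MP_eddcad_an.h43

open Finset h49

theorem choose_succ_mul (m k : ℕ) :
    (m + 1 + k).choose (m + 1) * (m + 1) = (m + k + 1) * (m + k).choose m := by
  rw [show m + 1 + k = m + k + 1 by omega]
  exact (Nat.add_one_mul_choose_eq (m + k) m).symm

theorem choose_scale (m j : ℕ) {s : ℕ} (hs : 1 ≤ s) :
    (m + s * j).choose m ≤ s ^ m * (m + j).choose m := by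
  induction m with
  | zero => simp
  | succ m ih =>
    refine Nat.le_of_mul_le_mul_right ?_ (Nat.succ_pos m)
    rw [Nat.succ_eq_add_one, choose_succ_mul, mul_assoc, choose_succ_mul, pow_succ]
    calc (m + s * j + 1) * (m + s * j).choose m
        ≤ (s * (m + j + 1)) * (s ^ m * (m + j).choose m) := Nat.mul_le_mul (by nlinarith) ih
      _ = _ := by ring

theorem choose_le_pow' (m j : ℕ) : (m + j).choose m ≤ (j + 1) ^ m := by
  induction m with
  | zero => simp
  | succ m ih =>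
    refine Nat.le_of_mul_le_mul_right ?_ (Nat.succ_pos m)
    rw [Nat.succ_eq_add_one, choose_succ_mul, pow_succ]
    calc (m + j + 1) * (m + j).choose m ≤ ((j + 1) * (m + 1)) * (j + 1) ^ m :=
          Nat.mul_le_mul (by nlinarith) ih
      _ = _ := by ring

theorem choose_sym (m k : ℕ) : (m + 1 + k - 1).choose k = (m + k).choose m := by
  rw [show m + 1 + k - 1 = m + k by omega, Nat.choose_symm_add]

theorem sph_block {n j a : ℕ} (hn : 0 < n) (hja : j ≤ a) :
    Sph n ((n + (j + a) - 1).choose (j + a) +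
      n * ∑ b ∈ range j, (n + (j + b) - 1).choose (j + b) + 1) (a * (n + j - 1).choose j) := by
  obtain ⟨ι, _, g, h1, h2, h3, h4⟩ := block (⟨0, hn⟩ : Fin n) (step_all j) hja
  simp only [h19.card_mon, Fintype.card_fin, ← Finset.mul_sum] at h1 h2 h3
  rw [mul_comm _ a] at h2 h3
  exact ⟨ι, inferInstance, g, by omega, h2, h3, h4⟩

theorem sph_sum {n M e : ℕ} (h : Sph n (M + 1) e) (t : ℕ) (c f : Fin t → ℕ)
    (hc : ∀ i, Sph n (c i + 1) (f i)) : Sph n (M + ∑ i, c i + 1) (e + ∑ i, f i) := by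
  induction t with
  | zero => simpa using h
  | succ t ih =>
    have h5 := (ih (fun i => c i.succ) (fun i => f i.succ) fun i => hc _).tensor (hc 0)
    rw [Fin.sum_univ_succ, Fin.sum_univ_succ, add_comm (c 0), add_comm (f 0), ← add_assoc,
      ← add_assoc]
    exact h5

theorem two_pow_bound {m : ℕ} (hm : 2 ≤ m) :
    ((m + 3) * 2 ^ m * 2 ^ (m + 1)) ^ ((m + 1) * m + 1) * (2 ^ m * (2 ^ m) ^ (m + 1)) <
      (16 ^ (m + 1)) ^ ((m + 1) * m) := by
  have h1 : m + 3 ≤ 2 ^ (m + 1) := by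
    have := Nat.lt_two_pow_self (n := m)
    rw [pow_succ]
    omega
  calc _ ≤ (2 ^ (m + 1) * 2 ^ m * 2 ^ (m + 1)) ^ ((m + 1) * m + 1) *
        (2 ^ m * (2 ^ m) ^ (m + 1)) := by gcongr
    _ = 2 ^ ((m + 1 + m + (m + 1)) * ((m + 1) * m + 1) + (m + m * (m + 1))) := by
      simp only [← pow_add, ← pow_mul]
    _ < 2 ^ (4 * (m + 1) * ((m + 1) * m)) := Nat.pow_lt_pow_right one_lt_two (by
      obtain ⟨k, rfl⟩ := Nat.exists_eq_add_of_le hm
      ring_nf
      omega)
    _ = _ := by rw [show (16 : ℕ) = 2 ^ 4 by norm_num, ← pow_mul, ← pow_mul, mul_assoc]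

theorem arith_range {m N d : ℕ} (hm : 2 ≤ m) (hd : 1 ≤ d)
    (h : (16 ^ (m + 1) * d) ^ ((m + 1) * m) ≤ N ^ ((m + 1) * m + 1)) :
    ∃ j t : ℕ, 1 ≤ t ∧ t ^ m ≤ j ∧ (m + 3) * 2 ^ m * (j * (m + j).choose m) < N ∧
      d ≤ t * (j * (m + j).choose m) := by
  classical
  have hG : ∀ k, 1 ≤ (m + k).choose m := fun k => Nat.choose_pos (Nat.le_add_right _ _)
  have hK : 1 ≤ (m + 3) * 2 ^ m := Nat.mul_pos (by omega) (by positivity)
  have hb := two_pow_bound hm
  set K := (m + 3) * 2 ^ m with hKdef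
  have ex : ∃ j, N ≤ K * ((j + 1) * (m + (j + 1)).choose m) :=
    ⟨N, by nlinarith [hG (N + 1), Nat.mul_le_mul hK (Nat.mul_le_mul (le_refl (N + 1)) (hG (N + 1)))]⟩
  have h1 := Nat.find_spec ex
  have h2 := fun k => Nat.find_min ex (m := k)
  generalize Nat.find ex = j at h1 h2
  rcases j with _ | j
  · exfalso
    have h3 : N ≤ K * 2 ^ (m + 1) := by
      refine h1.trans (Nat.mul_le_mul_left _ ?_)
      have := choose_le_pow' m 1
      rw [pow_succ]
      norm_num at this ⊢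
      omega
    have h4 : (16 ^ (m + 1)) ^ ((m + 1) * m) ≤ (K * 2 ^ (m + 1)) ^ ((m + 1) * m + 1) :=
      (Nat.pow_le_pow_left (Nat.le_mul_of_pos_right _ hd) _).trans
        (h.trans (Nat.pow_le_pow_left h3 _))
    have h5 : 0 < 2 ^ m * (2 ^ m) ^ (m + 1) := by positivity
    exact absurd (h4.trans (Nat.le_mul_of_pos_right _ h5)) (not_le.2 hb)
  have h3 := not_le.1 (h2 j (Nat.lt_succ_self j))
  have ex' : ∃ t, j + 1 < (t + 2) ^ m := ⟨j, by
    calc j + 1 < (j + 2) ^ 1 := by simp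
      _ ≤ (j + 2) ^ m := Nat.pow_le_pow_right (by omega) (by omega)⟩
  have h4 := Nat.find_spec ex'
  have h5 := fun k => Nat.find_min ex' (m := k)
  generalize Nat.find ex' = t at h4 h5
  have h6 : (t + 1) ^ m ≤ j + 1 := by
    rcases t with _ | t
    · simp
    · exact not_lt.1 (h5 t (Nat.lt_succ_self t))
  refine ⟨j + 1, t + 1, by omega, h6, h3, ?_⟩
  by_contra hc
  set X := (j + 1) * (m + (j + 1)).choose m with hX
  have hX0 : 0 < X := Nat.mul_pos (by omega) (hG _)
  have h7 : N ≤ K * 2 ^ (m + 1) * X := by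
    refine h1.trans ?_
    have h8 : (m + (j + 1 + 1)).choose m ≤ 2 ^ m * (m + (j + 1)).choose m :=
      (Nat.choose_le_choose m (by omega)).trans (choose_scale m (j + 1) (s := 2) (by omega))
    calc K * ((j + 1 + 1) * (m + (j + 1 + 1)).choose m)
        ≤ K * ((2 * (j + 1)) * (2 ^ m * (m + (j + 1)).choose m)) := by
          gcongr
          omega
      _ = _ := by rw [hX]; ring
  have h8 : j + 1 ≤ 2 ^ m * (t + 1) ^ m := by
    rw [← mul_pow]
    exact h4.le.trans (Nat.pow_le_pow_left (by omega) _)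
  have h9 : X ≤ 2 ^ m * (2 ^ m) ^ (m + 1) * (t + 1) ^ ((m + 1) * m) := by
    calc X ≤ (j + 1) * (2 * (j + 1)) ^ m :=
          Nat.mul_le_mul_left _ ((choose_le_pow' m _).trans (Nat.pow_le_pow_left (by omega) _))
      _ = 2 ^ m * (j + 1) ^ (m + 1) := by rw [mul_pow]; ring
      _ ≤ 2 ^ m * (2 ^ m * (t + 1) ^ m) ^ (m + 1) := by gcongr
      _ = _ := by rw [mul_pow, ← pow_mul (t + 1), mul_comm m (m + 1), mul_assoc]
  have h10 : (16 ^ (m + 1) * ((t + 1) * X)) ^ ((m + 1) * m) ≤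
      (K * 2 ^ (m + 1) * X) ^ ((m + 1) * m + 1) :=
    (Nat.pow_le_pow_left (Nat.mul_le_mul_left _ (not_le.1 hc).le) _).trans
      (h.trans (Nat.pow_le_pow_left h7 _))
  generalize (m + 1) * m = e at h9 h10 hb
  generalize 2 ^ m * (2 ^ m) ^ (m + 1) = B at h9 hb
  generalize K * 2 ^ (m + 1) = A at h10 hb
  generalize 16 ^ (m + 1) = S at h10 hb
  have h11 : S ^ e * ((t + 1) ^ e * X ^ e) ≤ A ^ (e + 1) * B * ((t + 1) ^ e * X ^ e) := by
    calc S ^ e * ((t + 1) ^ e * X ^ e) = (S * ((t + 1) * X)) ^ e := by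
          rw [mul_pow S, mul_pow (t + 1)]
      _ ≤ (A * X) ^ (e + 1) := h10
      _ = A ^ (e + 1) * X * X ^ e := by rw [mul_pow A, pow_succ' X, mul_assoc (A ^ _)]
      _ ≤ A ^ (e + 1) * (B * (t + 1) ^ e) * X ^ e := by gcongr
      _ = _ := by ring
  exact absurd (Nat.le_of_mul_le_mul_right h11 (by positivity)) (not_le.2 hb)

theorem sph_range {m N d j t : ℕ} (ht : 1 ≤ t) (htj : t ^ m ≤ j)
    (hN : (m + 3) * 2 ^ m * (j * (m + j).choose m) < N) (hd : d ≤ t * (j * (m + j).choose m)) :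
    Sph (m + 1) N d := by
  have hj : 1 ≤ j := (Nat.one_le_pow _ _ ht).trans htj
  have hm : m ≤ 2 ^ m := Nat.lt_two_pow_self.le
  set G := (m + j).choose m with hG
  have hG0 : 0 < G := Nat.choose_pos (Nat.le_add_right _ _)
  rcases Nat.lt_or_ge (d / G) j with h | h
  · have h1 : d < j * G := (Nat.div_lt_iff_lt_mul hG0).1 h
    have h2 := (sph_one (m + 1)).add_deg (N := 0) d
    rw [zero_add, zero_add] at h2
    refine h2.mono (Nat.succ_le_of_lt (lt_of_le_of_lt ?_ hN))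
    calc d * m ≤ (j * G) * 2 ^ m := Nat.mul_le_mul h1.le hm
      _ = 1 * 2 ^ m * (j * G) := by ring
      _ ≤ _ := by gcongr; omega
  · have h1 := (sph_block (Nat.succ_pos m) h).add_deg (d % G)
    simp only [Nat.succ_eq_add_one, choose_sym] at h1
    rw [← hG, mul_comm (d / G), Nat.div_add_mod] at h1
    refine h1.mono (Nat.succ_le_of_lt (lt_of_le_of_lt ?_ hN))
    have h2 : d / G ≤ t * j := Nat.div_le_of_le_mul (by rw [mul_comm G, mul_assoc]; exact hd)
    have h3 : (m + (j + d / G)).choose m ≤ 2 ^ m * (j * G) := by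
      calc (m + (j + d / G)).choose m ≤ (m + (2 * t) * j).choose m :=
            Nat.choose_le_choose m (by nlinarith)
        _ ≤ (2 * t) ^ m * G := choose_scale m j (by omega)
        _ ≤ _ := by
          rw [mul_pow, mul_assoc]
          gcongr
    have h4 : ∑ b ∈ range j, (m + (j + b)).choose m ≤ 2 ^ m * (j * G) := by
      calc ∑ b ∈ range j, (m + (j + b)).choose m ≤ #(range j) • (2 ^ m * G) :=
            Finset.sum_le_card_nsmul _ _ _ fun b hb =>
              (Nat.choose_le_choose m (by have := Finset.mem_range.1 hb; omega)).trans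
                (choose_scale m j (s := 2) (by omega))
        _ = _ := by rw [Finset.card_range, smul_eq_mul]; ring
    have h5 : d % G * m ≤ 2 ^ m * (j * G) := by
      rw [mul_comm]
      exact Nat.mul_le_mul hm ((Nat.mod_lt _ hG0).le.trans (Nat.le_mul_of_pos_left _ hj))
    have h6 := Nat.mul_le_mul_left (m + 1) h4
    calc _ ≤ 2 ^ m * (j * G) + (m + 1) * (2 ^ m * (j * G)) + 2 ^ m * (j * G) := by omega
      _ = _ := by ring

theorem polyDeg_growth {n N d : ℕ} (hn : 1 ≤ n) (hd : 1 ≤ d)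
    (h : (16 ^ n * d) ^ (n * (n - 1)) ≤ N ^ (n * (n - 1) + 1)) : PolyDeg n N d := by
  obtain ⟨m, rfl⟩ : ∃ m, n = m + 1 := ⟨n - 1, by omega⟩
  rw [Nat.add_sub_cancel] at h
  rcases Nat.lt_or_ge m 2 with hm | hm
  · interval_cases m
    · have h2 := (sph_one (0 + 1)).add_deg (N := 0) d
      rw [zero_add d] at h2
      exact (h2.mono (by simpa using h)).polyDeg hn hd
    · refine h19.polyDeg_pow hd ?_
      norm_num at h
      nlinarith
  · obtain ⟨j, t, h1, h2, h3, h4⟩ := arith_range hm hd h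
    exact (sph_range h1 h2 h3 h4).polyDeg hn hd

theorem polyDeg_two {N d k : ℕ} (hd : 1 ≤ d) (h : 2 * d + k ^ 3 + 7 * k ^ 2 ≤ 2 * k * N) :
    PolyDeg 2 N d := by
  rcases k with _ | j
  · omega
  rcases Nat.lt_or_ge (d / (j + 1)) j with h1 | h1
  · have h2 : d < j * (j + 1) := (Nat.div_lt_iff_lt_mul (Nat.succ_pos j)).1 h1
    have h3 : (j + 1) * ((j + 1) ^ 2 + 7 * (j + 1)) ≤ (j + 1) * (2 * N) := by nlinarith
    have h4 := Nat.le_of_mul_le_mul_left h3 (Nat.succ_pos j)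
    exact polyDeg_of_range two_pos hd (Or.inr ⟨rfl, by nlinarith⟩)
  · obtain ⟨ι, _, g, h2, h3, h4, h5⟩ := block (0 : Fin 2) (step_two j) h1
    simp only [card_two] at h2 h3 h4
    have h6 : Sph (1 + 1) (j + d / (j + 1) + 1 + ∑ b ∈ range j, (j - b + 2) + 1)
        ((j + 1) * (d / (j + 1))) := ⟨ι, inferInstance, g, by omega, h3, h4, h5⟩
    have h7 := h6.add_deg (d % (j + 1))
    rw [Nat.div_add_mod] at h7
    refine (h7.mono ?_).polyDeg two_pos hd
    have h8 := sum_two j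
    have h9 : d % (j + 1) < j + 1 := Nat.mod_lt _ (Nat.succ_pos j)
    have h10 : (j + 1) * (d / (j + 1)) ≤ d := Nat.mul_div_le d (j + 1)
    have h11 : (j + 1) * (2 * (d / (j + 1)) + (j + 1) ^ 2 + 7 * (j + 1)) ≤ (j + 1) * (2 * N) := by
      nlinarith
    have h12 := Nat.le_of_mul_le_mul_left h11 (Nat.succ_pos j)
    nlinarith

end Pool.Agent.MP_eddcad_an.h43
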